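import Mathlib

namespace Pool.Agent.H.MP_011385_al

def ZT (k p i z : ℕ) : Prop :=
  (p = 4 * i + 0 ∧ p ≤ 4 * k ∧ z = 2 * i) ∨
  (p = 4 * i + 1 ∧ p ≤ 4 * k ∧ z + 2 * i = 4 * k) ∨
  (p = 4 * i + 2 ∧ p ≤ 4 * k ∧ z = 2 * i + 1) ∨
  (p = 4 * i + 3 ∧ p ≤ 4 * k ∧ z + 2 * i + 1 = 8 * k) ∨
  (p = 4 * i + 0 ∧ 4 * k < p ∧ p ≤ 8 * k ∧ z = 10 * k + 2 * i) ∨
  (p = 4 * i + 1 ∧ 4 * k < p ∧ p ≤ 8 * k ∧ z + 2 * i = 14 * k) ∨
  (p = 4 * i + 2 ∧ 4 * k < p ∧ p ≤ 8 * k ∧ z = 6 * k + 2 * i + 1) ∨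
  (p = 4 * i + 3 ∧ 4 * k < p ∧ p ≤ 8 * k ∧ z + 2 * i + 1 = 14 * k) ∨
  (p = 4 * i + 0 ∧ 8 * k < p ∧ p < 12 * k ∧ z = 10 * k + 2 * i) ∨
  (p = 4 * i + 1 ∧ 8 * k < p ∧ p < 12 * k ∧ z + 2 * i + 1 = 8 * k) ∨
  (p = 4 * i + 2 ∧ 8 * k < p ∧ p < 12 * k ∧ z = 10 * k + 2 * i + 1) ∨
  (p = 4 * i + 3 ∧ 8 * k < p ∧ p < 12 * k ∧ z + 2 * i + 2 = 12 * k) ∨
  (p = 4 * i + 0 ∧ 12 * k ≤ p ∧ p + 1 < 16 * k ∧ z = 6 * k + 2 * i + 1) ∨
  (p = 4 * i + 1 ∧ 12 * k ≤ p ∧ p + 1 < 16 * k ∧ z + 2 * i + 1 = 12 * k) ∨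
  (p = 4 * i + 2 ∧ 12 * k ≤ p ∧ p + 1 < 16 * k ∧ z = 2 * k + 2 * i + 2) ∨
  (p = 4 * i + 3 ∧ 12 * k ≤ p ∧ p + 1 < 16 * k ∧ z + 2 * i + 2 = 12 * k) ∨
  (p = 4 * i + 3 ∧ p + 1 = 16 * k ∧ z = 8 * k)

def DT (k p i z : ℕ) : Prop :=
  (p = 4 * i + 0 ∧ p < 4 * k ∧ z + 4 * i = 4 * k) ∨
  (p = 4 * i + 1 ∧ p < 4 * k ∧ z = 4 * k + 4 * i + 1) ∨
  (p = 4 * i + 2 ∧ p < 4 * k ∧ z + 4 * i + 2 = 8 * k) ∨
  (p = 4 * i + 3 ∧ p < 4 * k ∧ z = 4 * i + 3) ∨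
  (p = 4 * i + 0 ∧ p = 4 * k ∧ z = 12 * k) ∨
  (p = 4 * i + 0 ∧ 4 * k < p ∧ p < 8 * k ∧ z + 4 * i = 12 * k) ∨
  (p = 4 * i + 1 ∧ 4 * k < p ∧ p < 8 * k ∧ z + 4 * k = 4 * i + 1) ∨
  (p = 4 * i + 2 ∧ 4 * k < p ∧ p < 8 * k ∧ z + 4 * i + 2 = 8 * k) ∨
  (p = 4 * i + 3 ∧ 4 * k < p ∧ p < 8 * k ∧ z = 4 * i + 3) ∨
  (p = 4 * i + 0 ∧ 8 * k ≤ p ∧ p + 1 < 12 * k ∧ z + 4 * i + 1 = 20 * k) ∨
  (p = 4 * i + 1 ∧ 8 * k ≤ p ∧ p + 1 < 12 * k ∧ z = 4 * k + 4 * i + 2) ∨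
  (p = 4 * i + 2 ∧ 8 * k ≤ p ∧ p + 1 < 12 * k ∧ z + 4 * i + 3 = 24 * k) ∨
  (p = 4 * i + 3 ∧ 8 * k ≤ p ∧ p + 1 < 12 * k ∧ z = 4 * i + 4) ∨
  (p = 4 * i + 0 ∧ 12 * k ≤ p + 1 ∧ p + 2 < 16 * k ∧ z + 4 * i + 2 = 24 * k) ∨
  (p = 4 * i + 1 ∧ 12 * k ≤ p + 1 ∧ p + 2 < 16 * k ∧ z = 4 * i + 3) ∨
  (p = 4 * i + 2 ∧ 12 * k ≤ p + 1 ∧ p + 2 < 16 * k ∧ z + 4 * i + 4 = 28 * k) ∨
  (p = 4 * i + 3 ∧ 12 * k ≤ p + 1 ∧ p + 2 < 16 * k ∧ z + 4 * k = 4 * i + 5) ∨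
  (p = 4 * i + 2 ∧ p + 2 = 16 * k ∧ z = 8 * k)

theorem exZ (k p : ℕ) : ∃ z, p < 16 * k → z < 16 * k ∧ ∃ i, ZT k p i z := by
  by_cases hp : p < 16 * k
  swap
  · exact ⟨0, fun h => absurd h hp⟩
  obtain ⟨i, hi⟩ : ∃ i, p = 4 * i + 0 ∨ p = 4 * i + 1 ∨ p = 4 * i + 2 ∨ p = 4 * i + 3 :=
    ⟨p / 4, by omega⟩
  rcases (by omega : (p ≤ 4 * k) ∨ (4 * k < p ∧ p ≤ 8 * k) ∨ (8 * k < p ∧ p < 12 * k) ∨ (12 * k ≤ p ∧ p + 1 < 16 * k) ∨ (p + 1 = 16 * k))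
    with h | h | h | h | h <;> rcases hi with hi | hi | hi | hi
  · exact ⟨2 * i, fun _ => ⟨by omega, i,
      Or.inl ⟨hi, by omega, by omega⟩⟩⟩
  · exact ⟨4 * k - (2 * i), fun _ => ⟨by omega, i,
      Or.inr <| Or.inl ⟨hi, by omega, by omega⟩⟩⟩
  · exact ⟨2 * i + 1, fun _ => ⟨by omega, i,
      Or.inr <| Or.inr <| Or.inl ⟨hi, by omega, by omega⟩⟩⟩
  · exact ⟨8 * k - (2 * i + 1), fun _ => ⟨by omega, i,
      Or.inr <| Or.inr <| Or.inr <| Or.inl ⟨hi, by omega, by omega⟩⟩⟩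
  · exact ⟨10 * k + 2 * i, fun _ => ⟨by omega, i,
      Or.inr <| Or.inr <| Or.inr <| Or.inr <| Or.inl ⟨hi, by omega, by omega, by omega⟩⟩⟩
  · exact ⟨14 * k - (2 * i), fun _ => ⟨by omega, i,
      Or.inr <| Or.inr <| Or.inr <| Or.inr <| Or.inr <| Or.inl ⟨hi, by omega, by omega, by omega⟩⟩⟩
  · exact ⟨6 * k + 2 * i + 1, fun _ => ⟨by omega, i,
      Or.inr <| Or.inr <| Or.inr <| Or.inr <| Or.inr <| Or.inr <| Or.inl ⟨hi, by omega, by omega, by omega⟩⟩⟩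
  · exact ⟨14 * k - (2 * i + 1), fun _ => ⟨by omega, i,
      Or.inr <| Or.inr <| Or.inr <| Or.inr <| Or.inr <| Or.inr <| Or.inr <| Or.inl ⟨hi, by omega, by omega, by omega⟩⟩⟩
  · exact ⟨10 * k + 2 * i, fun _ => ⟨by omega, i,
      Or.inr <| Or.inr <| Or.inr <| Or.inr <| Or.inr <| Or.inr <| Or.inr <| Or.inr <| Or.inl ⟨hi, by omega, by omega, by omega⟩⟩⟩
  · exact ⟨8 * k - (2 * i + 1), fun _ => ⟨by omega, i,
      Or.inr <| Or.inr <| Or.inr <| Or.inr <| Or.inr <| Or.inr <| Or.inr <| Or.inr <| Or.inr <| Or.inl ⟨hi, by omega, by omega, by omega⟩⟩⟩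
  · exact ⟨10 * k + 2 * i + 1, fun _ => ⟨by omega, i,
      Or.inr <| Or.inr <| Or.inr <| Or.inr <| Or.inr <| Or.inr <| Or.inr <| Or.inr <| Or.inr <| Or.inr <| Or.inl ⟨hi, by omega, by omega, by omega⟩⟩⟩
  · exact ⟨12 * k - (2 * i + 2), fun _ => ⟨by omega, i,
      Or.inr <| Or.inr <| Or.inr <| Or.inr <| Or.inr <| Or.inr <| Or.inr <| Or.inr <| Or.inr <| Or.inr <| Or.inr <| Or.inl ⟨hi, by omega, by omega, by omega⟩⟩⟩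
  · exact ⟨6 * k + 2 * i + 1, fun _ => ⟨by omega, i,
      Or.inr <| Or.inr <| Or.inr <| Or.inr <| Or.inr <| Or.inr <| Or.inr <| Or.inr <| Or.inr <| Or.inr <| Or.inr <| Or.inr <| Or.inl ⟨hi, by omega, by omega, by omega⟩⟩⟩
  · exact ⟨12 * k - (2 * i + 1), fun _ => ⟨by omega, i,
      Or.inr <| Or.inr <| Or.inr <| Or.inr <| Or.inr <| Or.inr <| Or.inr <| Or.inr <| Or.inr <| Or.inr <| Or.inr <| Or.inr <| Or.inr <| Or.inl ⟨hi, by omega, by omega, by omega⟩⟩⟩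
  · exact ⟨2 * k + 2 * i + 2, fun _ => ⟨by omega, i,
      Or.inr <| Or.inr <| Or.inr <| Or.inr <| Or.inr <| Or.inr <| Or.inr <| Or.inr <| Or.inr <| Or.inr <| Or.inr <| Or.inr <| Or.inr <| Or.inr <| Or.inl ⟨hi, by omega, by omega, by omega⟩⟩⟩
  · exact ⟨12 * k - (2 * i + 2), fun _ => ⟨by omega, i,
      Or.inr <| Or.inr <| Or.inr <| Or.inr <| Or.inr <| Or.inr <| Or.inr <| Or.inr <| Or.inr <| Or.inr <| Or.inr <| Or.inr <| Or.inr <| Or.inr <| Or.inr <| Or.inl ⟨hi, by omega, by omega, by omega⟩⟩⟩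
  · omega
  · omega
  · omega
  · exact ⟨8 * k, fun _ => ⟨by omega, i,
      Or.inr <| Or.inr <| Or.inr <| Or.inr <| Or.inr <| Or.inr <| Or.inr <| Or.inr <| Or.inr <| Or.inr <| Or.inr <| Or.inr <| Or.inr <| Or.inr <| Or.inr <| Or.inr ⟨hi, by omega, by omega⟩⟩⟩

theorem exD (k p : ℕ) : ∃ z, p + 1 < 16 * k → z < 16 * k ∧ ∃ i, DT k p i z := by
  by_cases hp : p + 1 < 16 * k
  swap
  · exact ⟨0, fun h => absurd h hp⟩
  obtain ⟨i, hi⟩ : ∃ i, p = 4 * i + 0 ∨ p = 4 * i + 1 ∨ p = 4 * i + 2 ∨ p = 4 * i + 3 :=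
    ⟨p / 4, by omega⟩
  rcases (by omega : (p < 4 * k) ∨ (p = 4 * k) ∨ (4 * k < p ∧ p < 8 * k) ∨ (8 * k ≤ p ∧ p + 1 < 12 * k) ∨ (12 * k ≤ p + 1 ∧ p + 2 < 16 * k) ∨ (p + 2 = 16 * k))
    with h | h | h | h | h | h <;> rcases hi with hi | hi | hi | hi
  · exact ⟨4 * k - (4 * i), fun _ => ⟨by omega, i,
      Or.inl ⟨hi, by omega, by omega⟩⟩⟩
  · exact ⟨4 * k + 4 * i + 1, fun _ => ⟨by omega, i,
      Or.inr <| Or.inl ⟨hi, by omega, by omega⟩⟩⟩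
  · exact ⟨8 * k - (4 * i + 2), fun _ => ⟨by omega, i,
      Or.inr <| Or.inr <| Or.inl ⟨hi, by omega, by omega⟩⟩⟩
  · exact ⟨4 * i + 3, fun _ => ⟨by omega, i,
      Or.inr <| Or.inr <| Or.inr <| Or.inl ⟨hi, by omega, by omega⟩⟩⟩
  · exact ⟨12 * k, fun _ => ⟨by omega, i,
      Or.inr <| Or.inr <| Or.inr <| Or.inr <| Or.inl ⟨hi, by omega, by omega⟩⟩⟩
  · omega
  · omega
  · omega
  · exact ⟨12 * k - (4 * i), fun _ => ⟨by omega, i,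
      Or.inr <| Or.inr <| Or.inr <| Or.inr <| Or.inr <| Or.inl ⟨hi, by omega, by omega, by omega⟩⟩⟩
  · exact ⟨4 * i + 1 - (4 * k), fun _ => ⟨by omega, i,
      Or.inr <| Or.inr <| Or.inr <| Or.inr <| Or.inr <| Or.inr <| Or.inl ⟨hi, by omega, by omega, by omega⟩⟩⟩
  · exact ⟨8 * k - (4 * i + 2), fun _ => ⟨by omega, i,
      Or.inr <| Or.inr <| Or.inr <| Or.inr <| Or.inr <| Or.inr <| Or.inr <| Or.inl ⟨hi, by omega, by omega, by omega⟩⟩⟩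
  · exact ⟨4 * i + 3, fun _ => ⟨by omega, i,
      Or.inr <| Or.inr <| Or.inr <| Or.inr <| Or.inr <| Or.inr <| Or.inr <| Or.inr <| Or.inl ⟨hi, by omega, by omega, by omega⟩⟩⟩
  · exact ⟨20 * k - (4 * i + 1), fun _ => ⟨by omega, i,
      Or.inr <| Or.inr <| Or.inr <| Or.inr <| Or.inr <| Or.inr <| Or.inr <| Or.inr <| Or.inr <| Or.inl ⟨hi, by omega, by omega, by omega⟩⟩⟩
  · exact ⟨4 * k + 4 * i + 2, fun _ => ⟨by omega, i,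
      Or.inr <| Or.inr <| Or.inr <| Or.inr <| Or.inr <| Or.inr <| Or.inr <| Or.inr <| Or.inr <| Or.inr <| Or.inl ⟨hi, by omega, by omega, by omega⟩⟩⟩
  · exact ⟨24 * k - (4 * i + 3), fun _ => ⟨by omega, i,
      Or.inr <| Or.inr <| Or.inr <| Or.inr <| Or.inr <| Or.inr <| Or.inr <| Or.inr <| Or.inr <| Or.inr <| Or.inr <| Or.inl ⟨hi, by omega, by omega, by omega⟩⟩⟩
  · exact ⟨4 * i + 4, fun _ => ⟨by omega, i,
      Or.inr <| Or.inr <| Or.inr <| Or.inr <| Or.inr <| Or.inr <| Or.inr <| Or.inr <| Or.inr <| Or.inr <| Or.inr <| Or.inr <| Or.inl ⟨hi, by omega, by omega, by omega⟩⟩⟩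
  · exact ⟨24 * k - (4 * i + 2), fun _ => ⟨by omega, i,
      Or.inr <| Or.inr <| Or.inr <| Or.inr <| Or.inr <| Or.inr <| Or.inr <| Or.inr <| Or.inr <| Or.inr <| Or.inr <| Or.inr <| Or.inr <| Or.inl ⟨hi, by omega, by omega, by omega⟩⟩⟩
  · exact ⟨4 * i + 3, fun _ => ⟨by omega, i,
      Or.inr <| Or.inr <| Or.inr <| Or.inr <| Or.inr <| Or.inr <| Or.inr <| Or.inr <| Or.inr <| Or.inr <| Or.inr <| Or.inr <| Or.inr <| Or.inr <| Or.inl ⟨hi, by omega, by omega, by omega⟩⟩⟩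
  · exact ⟨28 * k - (4 * i + 4), fun _ => ⟨by omega, i,
      Or.inr <| Or.inr <| Or.inr <| Or.inr <| Or.inr <| Or.inr <| Or.inr <| Or.inr <| Or.inr <| Or.inr <| Or.inr <| Or.inr <| Or.inr <| Or.inr <| Or.inr <| Or.inl ⟨hi, by omega, by omega, by omega⟩⟩⟩
  · exact ⟨4 * i + 5 - (4 * k), fun _ => ⟨by omega, i,
      Or.inr <| Or.inr <| Or.inr <| Or.inr <| Or.inr <| Or.inr <| Or.inr <| Or.inr <| Or.inr <| Or.inr <| Or.inr <| Or.inr <| Or.inr <| Or.inr <| Or.inr <| Or.inr <| Or.inl ⟨hi, by omega, by omega, by omega⟩⟩⟩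
  · omega
  · omega
  · exact ⟨8 * k, fun _ => ⟨by omega, i,
      Or.inr <| Or.inr <| Or.inr <| Or.inr <| Or.inr <| Or.inr <| Or.inr <| Or.inr <| Or.inr <| Or.inr <| Or.inr <| Or.inr <| Or.inr <| Or.inr <| Or.inr <| Or.inr <| Or.inr ⟨hi, by omega, by omega⟩⟩⟩
  · omega

theorem ZT_inj {k p q i j z : ℕ} (h : ZT k p i z) (g : ZT k q j z) : p = q := by
  rcases h with h | h | h | h | h | h | h | h | h | h | h | h | h | h | h | h | h <;>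
  rcases g with g | g | g | g | g | g | g | g | g | g | g | g | g | g | g | g | g <;> omega

theorem DT_inj {k p q i j z : ℕ} (h : DT k p i z) (g : DT k q j z) : p = q := by
  rcases h with h | h | h | h | h | h | h | h | h | h | h | h | h | h | h | h | h | h <;>
  rcases g with g | g | g | g | g | g | g | g | g | g | g | g | g | g | g | g | g | g <;> omega

theorem ZT_last {k p i z : ℕ} (h : ZT k p i z) (hp : p + 1 = 16 * k) : z = 8 * k := by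
  rcases h with h | h | h | h | h | h | h | h | h | h | h | h | h | h | h | h | h <;> omega

def Dv (k x y : ℕ) : Prop := x = y ∨ x = y + 8 * k ∨ x = y + 16 * k ∨ x = y + 24 * k ∨ x + 8 * k = y

def St (k x d y : ℕ) : Prop :=
  (x < 8 * k ∧ d < 8 * k ∧ y < 8 * k ∧ Dv k (x + d) y) ∨
  (x < 8 * k ∧ ¬ d < 8 * k ∧ ¬ y < 8 * k ∧ Dv k (x + (d - 2 * k)) y) ∨
  (¬ x < 8 * k ∧ d < 8 * k ∧ ¬ y < 8 * k ∧
    ((d % 2 = 0 ∧ Dv k (x + d) y) ∨ (d % 2 = 1 ∧ Dv k (x + d + 4 * k) y))) ∨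
  (¬ x < 8 * k ∧ ¬ d < 8 * k ∧ y < 8 * k ∧ (((d - 2 * k) % 2 = 0 ∧ Dv k (x + (d - 2 * k)) y) ∨
    ((d - 2 * k) % 2 = 1 ∧ Dv k (x + (d - 2 * k) + 4 * k) y)))

theorem step0 {k p q i j l x d y : ℕ} (h : ZT k p i x) (g : DT k p j d) (f : ZT k q l y)
    (hq : (q = p + 1 ∧ q + 1 < 16 * k) ∨ (q = 0 ∧ p + 2 = 16 * k)) : St k x d y := by
  unfold St Dv
  rcases h with h | h | h | h | h | h | h | h | h | h | h | h | h | h | h | h | h <;>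
  rcases g with g | g | g | g | g | g | g | g | g | g | g | g | g | g | g | g | g | g <;> first
    | (exfalso; omega)
    | (rcases f with f | f | f | f | f | f | f | f | f | f | f | f | f | f | f | f | f <;> first
      | (exfalso; omega)
      | exact Or.inl ⟨by omega, by omega, by omega, by omega⟩
      | exact Or.inr (Or.inl ⟨by omega, by omega, by omega, by omega⟩)
      | exact Or.inr (Or.inr (Or.inl ⟨by omega, by omega, by omega, Or.inl ⟨by omega, by omega⟩⟩))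
      | exact Or.inr (Or.inr (Or.inl ⟨by omega, by omega, by omega, Or.inr ⟨by omega, by omega⟩⟩))
      | exact Or.inr (Or.inr (Or.inr ⟨by omega, by omega, by omega, Or.inl ⟨by omega, by omega⟩⟩))
      | exact Or.inr (Or.inr (Or.inr ⟨by omega, by omega, by omega, Or.inr ⟨by omega, by omega⟩⟩)))

noncomputable def Z (k p : ℕ) : ℕ := (exZ k p).choose

noncomputable def D (k p : ℕ) : ℕ := (exD k p).choose

theorem Z_lt {k p : ℕ} (hp : p < 16 * k) : Z k p < 16 * k := ((exZ k p).choose_spec hp).1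

theorem D_lt {k p : ℕ} (hp : p < 16 * k - 1) : D k p < 16 * k := ((exD k p).choose_spec (by omega)).1

theorem Z_inj {k p q : ℕ} (hp : p < 16 * k) (hq : q < 16 * k) (h : Z k p = Z k q) : p = q := by
  obtain ⟨i, hi⟩ := ((exZ k p).choose_spec hp).2
  obtain ⟨j, hj⟩ := ((exZ k q).choose_spec hq).2
  exact ZT_inj (h ▸ hi : ZT k p i (Z k q)) hj

theorem D_inj {k p q : ℕ} (hp : p < 16 * k - 1) (hq : q < 16 * k - 1) (h : D k p = D k q) :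
    p = q := by
  obtain ⟨i, hi⟩ := ((exD k p).choose_spec (by omega)).2
  obtain ⟨j, hj⟩ := ((exD k q).choose_spec (by omega)).2
  exact DT_inj (h ▸ hi : DT k p i (D k q)) hj

theorem zl {k : ℕ} (hk : 0 < k) : Z k (16 * k - 1) = 8 * k := by
  obtain ⟨i, hi⟩ := ((exZ k (16 * k - 1)).choose_spec (by omega)).2
  exact ZT_last hi (by omega)

theorem step {k p : ℕ} (hp : p < 16 * k - 1) :
    St k (Z k p) (D k p) (Z k ((p + 1) % (16 * k - 1))) := by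
  have := Nat.mod_lt (p + 1) (show 0 < 16 * k - 1 by omega)
  obtain ⟨i, hi⟩ := ((exZ k p).choose_spec (by omega)).2
  obtain ⟨j, hj⟩ := ((exD k p).choose_spec (by omega)).2
  obtain ⟨l, hl⟩ := ((exZ k ((p + 1) % (16 * k - 1))).choose_spec (by omega)).2
  refine step0 hi hj hl ?_
  rcases Nat.lt_or_ge (p + 1) (16 * k - 1) with h | h
  · rw [Nat.mod_eq_of_lt h]; omega
  · rw [show p + 1 = 16 * k - 1 by omega, Nat.mod_self]; omega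

end Pool.Agent.H.MP_011385_al
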